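import Mathlib

/-!
Stone-Weierstrass for products of pulled back functions.
-/

namespace Pool.Agent.H848R3

open ContinuousMap

/-- If two continuous maps `q : Z → U`, `r : Z → V` between compact Hausdorff spaces jointly
separate the points of `Z`, then the span of the products `(a ∘ q) * (b ∘ r)` is dense. -/
theorem dense_products {Z U V : Type} [TopologicalSpace Z] [CompactSpace Z]
    [TopologicalSpace U] [CompactSpace U] [T2Space U]
    [TopologicalSpace V] [CompactSpace V] [T2Space V] (q : C(Z, U)) (r : C(Z, V))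
    (hinj : ∀ z z', q z = q z' → r z = r z' → z = z') :
    closure ((Submodule.span ℂ {F : C(Z, ℂ) | ∃ (a : C(U, ℂ)) (b : C(V, ℂ)),
      F = a.comp q * b.comp r} : Submodule ℂ C(Z, ℂ)) : Set C(Z, ℂ)) = Set.univ := by
  set M : Set C(Z, ℂ) := {F : C(Z, ℂ) | ∃ (a : C(U, ℂ)) (b : C(V, ℂ)),
      F = a.comp q * b.comp r} with hM
  have hmulM : ∀ F ∈ M, ∀ G ∈ M, F * G ∈ M := by
    rintro F ⟨a, b, rfl⟩ G ⟨a', b', rfl⟩
    refine ⟨a * a', b * b', ?_⟩
    ext z
    simp only [ContinuousMap.mul_apply, ContinuousMap.comp_apply]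
    ring
  have hstarM : ∀ F ∈ M, star F ∈ M := by
    rintro F ⟨a, b, rfl⟩
    refine ⟨star a, star b, ?_⟩
    ext z
    simp only [ContinuousMap.star_apply, ContinuousMap.mul_apply, ContinuousMap.comp_apply,
      star_mul']
  have hmul : ∀ F ∈ Submodule.span ℂ M, ∀ G ∈ Submodule.span ℂ M, F * G ∈ Submodule.span ℂ M := by
    intro F hF G hG
    have h1 : F * G ∈ Submodule.span ℂ M * Submodule.span ℂ M := Submodule.mul_mem_mul hF hG
    rw [Submodule.span_mul_span] at h1
    refine Submodule.span_mono ?_ h1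
    rintro _ ⟨F', hF', G', hG', rfl⟩
    exact hmulM F' hF' G' hG'
  have hstar : ∀ F ∈ Submodule.span ℂ M, star F ∈ Submodule.span ℂ M := by
    intro F hF
    induction hF using Submodule.span_induction with
    | mem x hx => exact Submodule.subset_span (hstarM x hx)
    | zero => simp
    | add x y _ _ hx hy => rw [star_add]; exact Submodule.add_mem _ hx hy
    | smul c x _ hx => rw [star_smul]; exact Submodule.smul_mem _ _ hx
  have hconst : ∀ c : ℂ, algebraMap ℂ C(Z, ℂ) c ∈ Submodule.span ℂ M := by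
    intro c
    have h1 : algebraMap ℂ C(Z, ℂ) c = c • (1 : C(Z, ℂ)) := Algebra.algebraMap_eq_smul_one c
    rw [h1]
    apply Submodule.smul_mem
    apply Submodule.subset_span
    refine ⟨1, 1, ?_⟩
    ext z
    simp
  let A : StarSubalgebra ℂ C(Z, ℂ) :=
    { carrier := (Submodule.span ℂ M : Set C(Z, ℂ))
      mul_mem' := fun {F G} hF hG => hmul F hF G hG
      add_mem' := fun {F G} hF hG => Submodule.add_mem _ hF hG
      algebraMap_mem' := hconst
      star_mem' := fun {F} hF => hstar F hF }
  have hsub : ∀ F, F ∈ A ↔ F ∈ Submodule.span ℂ M := fun F => Iff.rfl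
  have hsep : A.SeparatesPoints := by
    intro z z' hzz
    have hcase : q z ≠ q z' ∨ r z ≠ r z' := by
      by_contra hcon
      push Not at hcon
      exact hzz (hinj z z' hcon.1 hcon.2)
    rcases hcase with h | h
    · obtain ⟨f, hf0, hf1, -⟩ := exists_continuous_zero_one_of_isClosed
        (isClosed_singleton (x := q z)) (isClosed_singleton (x := q z'))
        (Set.disjoint_singleton.2 h)
      let a : C(U, ℂ) := ⟨fun u => ((f u : ℝ) : ℂ), by fun_prop⟩
      refine ⟨a.comp q, ⟨a.comp q, ?_, rfl⟩, ?_⟩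
      · refine (hsub _).2 (Submodule.subset_span ⟨a, 1, ?_⟩)
        ext z
        simp
      · have h0 : f (q z) = 0 := hf0 rfl
        have h1 : f (q z') = 1 := hf1 rfl
        show ((f (q z) : ℝ) : ℂ) ≠ ((f (q z') : ℝ) : ℂ)
        rw [h0, h1]
        simp
    · obtain ⟨f, hf0, hf1, -⟩ := exists_continuous_zero_one_of_isClosed
        (isClosed_singleton (x := r z)) (isClosed_singleton (x := r z'))
        (Set.disjoint_singleton.2 h)
      let a : C(V, ℂ) := ⟨fun u => ((f u : ℝ) : ℂ), by fun_prop⟩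
      refine ⟨a.comp r, ⟨a.comp r, ?_, rfl⟩, ?_⟩
      · refine (hsub _).2 (Submodule.subset_span ⟨1, a, ?_⟩)
        ext z
        simp
      · have h0 : f (r z) = 0 := hf0 rfl
        have h1 : f (r z') = 1 := hf1 rfl
        show ((f (r z) : ℝ) : ℂ) ≠ ((f (r z') : ℝ) : ℂ)
        rw [h0, h1]
        simp
  have htop := ContinuousMap.starSubalgebra_topologicalClosure_eq_top_of_separatesPoints A hsep
  have h2 : closure (A : Set C(Z, ℂ)) = Set.univ := by
    rw [← StarSubalgebra.topologicalClosure_coe, htop]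
    rfl
  exact h2

end Pool.Agent.H848R3
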