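import Mathlib

/-!
The characters of order `p ^ n` of the group of `p`-adic integers.
-/

namespace Pool.Agent.H848R3

open Complex

noncomputable section

variable (p : ℕ) [Fact p.Prime]

instance neZeroPow (n : ℕ) : NeZero (p ^ n) := ⟨pow_ne_zero n (Fact.out : p.Prime).ne_zero⟩

/-- The character `g ↦ exp (2 π i g / p ^ n)` of `ℤ_p`. -/
def psi (n : ℕ) (g : ℤ_[p]) : ℂ := ZMod.stdAddChar (PadicInt.toZModPow n g)

lemma psi_add (n : ℕ) (g h : ℤ_[p]) : psi p n (g + h) = psi p n g * psi p n h := by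
  simp [psi, AddChar.map_add_eq_mul]

lemma psi_zero (n : ℕ) : psi p n 0 = 1 := by simp [psi]

lemma psi_norm (n : ℕ) (g : ℤ_[p]) : ‖psi p n g‖ = 1 := by
  simp only [psi, ZMod.stdAddChar_apply]
  exact Circle.norm_coe _

lemma psi_pow (n : ℕ) (g : ℤ_[p]) : psi p n g ^ (p ^ n) = 1 := by
  unfold psi
  rw [← AddChar.map_nsmul_eq_pow]
  simp

lemma psi_compat (n m : ℕ) (g : ℤ_[p]) : psi p (n + m) g ^ (p ^ m) = psi p n g := by
  unfold psi
  have h1 : PadicInt.toZModPow n g = ((PadicInt.toZModPow (n + m) g).val : ZMod (p ^ n)) := by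
    rw [← PadicInt.cast_toZModPow n (n + m) (Nat.le_add_right _ _) g, ZMod.natCast_val]
  have h2 : PadicInt.toZModPow (n + m) g =
      (((PadicInt.toZModPow (n + m) g).val : ℤ) : ZMod (p ^ (n + m))) := by
    simp
  have h3 : PadicInt.toZModPow n g =
      (((PadicInt.toZModPow (n + m) g).val : ℤ) : ZMod (p ^ n)) := by
    rw [h1]; push_cast; rfl
  rw [h3]
  rw [h2]
  generalize hk : (((PadicInt.toZModPow (n + m) g).val : ℤ)) = k
  have h4 : ((PadicInt.toZModPow (n + m) g).val : ℤ) = k := hk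
  have h5 : (((((k : ZMod (p ^ (n + m))).val : ℕ) : ℤ)) : ℤ) = k := by
    rw [← h4]; simp
  rw [h5, ZMod.stdAddChar_coe, ZMod.stdAddChar_coe, ← Complex.exp_nat_mul]
  congr 1
  have hp : (p : ℂ) ≠ 0 := by exact_mod_cast (Fact.out : p.Prime).ne_zero
  push_cast
  rw [pow_add]
  field_simp

lemma psi_eq_one {n : ℕ} {g : ℤ_[p]} (h : psi p n g = 1) :
    g ∈ (Ideal.span {(p : ℤ_[p]) ^ n} : Ideal ℤ_[p]) := by
  rw [← PadicInt.ker_toZModPow, RingHom.mem_ker]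
  apply ZMod.injective_stdAddChar (N := p ^ n)
  rw [AddChar.map_zero_eq_one]
  exact h

lemma psi_congr {n : ℕ} {g h : ℤ_[p]} (hgh : ‖g - h‖ ≤ (p : ℝ) ^ (-(n : ℤ))) :
    psi p n g = psi p n h := by
  unfold psi
  congr 1
  have h1 : g - h ∈ (Ideal.span {(p : ℤ_[p]) ^ n} : Ideal ℤ_[p]) :=
    (PadicInt.norm_le_pow_iff_mem_span_pow _ _).1 hgh
  rw [← PadicInt.ker_toZModPow, RingHom.mem_ker, map_sub, sub_eq_zero] at h1
  exact h1

lemma psi_continuous (n : ℕ) : Continuous (psi p n) := by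
  rw [Metric.continuous_iff]
  intro g ε hε
  have hp : (0 : ℝ) < p := by exact_mod_cast (Fact.out : p.Prime).pos
  refine ⟨(p : ℝ) ^ (-(n : ℤ)), zpow_pos hp _, fun h hh => ?_⟩
  rw [dist_eq_norm] at hh
  rw [psi_congr p hh.le, dist_self]
  exact hε

lemma eq_zero_of_psi {f : ℕ → ℕ} (hf : ∀ m, ∃ j, m ≤ f j) {g : ℤ_[p]}
    (h : ∀ j, psi p (f j) g = 1) : g = 0 := by
  have hp1 : (1 : ℝ) < p := by exact_mod_cast (Fact.out : p.Prime).one_lt
  by_contra hg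
  have hg' : 0 < ‖g‖ := norm_pos_iff.2 hg
  obtain ⟨m, hm⟩ := exists_pow_lt_of_lt_one hg' (inv_lt_one_of_one_lt₀ hp1)
  obtain ⟨j, hj⟩ := hf m
  have h1 := (PadicInt.norm_le_pow_iff_mem_span_pow g (f j)).2 (psi_eq_one p (h j))
  have h2 : (p : ℝ) ^ (-(f j : ℤ)) ≤ ((p : ℝ)⁻¹) ^ m := by
    rw [zpow_neg, zpow_natCast, ← inv_pow]
    exact pow_le_pow_of_le_one (by positivity) (inv_le_one_of_one_le₀ hp1.le) hj
  linarith

end

end Pool.Agent.H848R3
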