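import Mathlib

/-!
Explicit equivariant null-homotopic self-maps of the 3-sphere.

For `a = b * b` there is a map `S^3 → S^3` that intertwines multiplication by an `a`-th root of
unity `u` with multiplication by `u ^ b`, and is homotopic to a constant map.
-/

namespace Pool.Agent.H848R3

open Complex ContinuousMap unitInterval

noncomputable section

/-- Nonzero vectors of `ℂ²`. -/
abbrev Y : Type := {v : ℂ × ℂ // v ≠ 0}

/-- The unit sphere of `ℂ²`. -/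
def S3 : Set (ℂ × ℂ) := {z | ‖z.1‖ ^ 2 + ‖z.2‖ ^ 2 = 1}

lemma isClosed_S3 : IsClosed S3 := isClosed_eq (by fun_prop) (by fun_prop)

instance compactS3 : CompactSpace S3 := by
  rw [← isCompact_iff_compactSpace]
  apply Metric.isCompact_of_isClosed_isBounded isClosed_S3
  refine (Metric.isBounded_closedBall (x := (0 : ℂ × ℂ)) (r := 1)).subset ?_
  intro z hz
  have hz' : ‖z.1‖ ^ 2 + ‖z.2‖ ^ 2 = 1 := hz
  simp only [mem_closedBall_zero_iff]
  rw [Prod.norm_def]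
  apply max_le
  · nlinarith [norm_nonneg z.1, norm_nonneg z.2, sq_nonneg ‖z.2‖]
  · nlinarith [norm_nonneg z.1, norm_nonneg z.2, sq_nonneg ‖z.1‖]

/-- Build a map to `Y` from two coordinates that never vanish together. -/
def mk {Z : Type*} [TopologicalSpace Z] (P Q : Z → ℂ) (hP : Continuous P) (hQ : Continuous Q)
    (h : ∀ z, ¬ (P z = 0 ∧ Q z = 0)) : C(Z, Y) :=
  ⟨fun z => ⟨(P z, Q z), fun h0 => h z (by simpa [Prod.ext_iff] using h0)⟩,
    Continuous.subtype_mk (by fun_prop) _⟩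

@[simp] lemma mk_coe {Z : Type*} [TopologicalSpace Z] (P Q : Z → ℂ) (hP : Continuous P)
    (hQ : Continuous Q) (h : ∀ z, ¬ (P z = 0 ∧ Q z = 0)) (z : Z) :
    ((mk P Q hP hQ h z : Y) : ℂ × ℂ) = (P z, Q z) := rfl

lemma sph (z : S3) : ‖z.1.1‖ ^ 2 + ‖z.1.2‖ ^ 2 = 1 := z.2

lemma sph_ne (z : S3) (h1 : z.1.1 = 0) (h2 : z.1.2 = 0) : False := by
  have := sph z
  simp [h1, h2] at this

/-! ### First homotopy -/

lemma nv1 (a : ℕ) (ha : 0 < a) (s : ℝ) (hs0 : 0 ≤ s) (hs1 : s ≤ 1) (z : S3) :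
    ¬ (z.1.1 ^ a + ((‖z.1.2‖ ^ 2 : ℝ) : ℂ) = 0 ∧
      z.1.2 * ((s : ℂ) - (1 - (s : ℂ)) * (starRingEnd ℂ) z.1.1) = 0) := by
  rintro ⟨h1, h2⟩
  rcases mul_eq_zero.1 h2 with h | h
  · rw [h] at h1
    simp only [norm_zero, ne_eq, OfNat.ofNat_ne_zero, not_false_eq_true, zero_pow, ofReal_zero,
      add_zero] at h1
    exact sph_ne z (pow_eq_zero_iff ha.ne' |>.1 h1) h
  · rcases eq_or_lt_of_le hs1 with h3 | h3
    · subst h3
      simp at h
    · have h4 : (1 - (s : ℂ)) ≠ 0 := by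
        intro h5
        have : (1 : ℝ) - s = 0 := by exact_mod_cast h5
        linarith
      have h5 : (starRingEnd ℂ) z.1.1 = (((s / (1 - s) : ℝ)) : ℂ) := by
        push_cast
        rw [eq_div_iff h4]
        linear_combination -h
      have h6 : z.1.1 = (((s / (1 - s) : ℝ)) : ℂ) := by
        have := congrArg (starRingEnd ℂ) h5
        rw [Complex.conj_conj, Complex.conj_ofReal] at this
        exact this
      have hr : 0 ≤ s / (1 - s) := div_nonneg hs0 (by linarith)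
      rw [h6] at h1
      have h7 : (s / (1 - s)) ^ a + ‖z.1.2‖ ^ 2 = 0 := by exact_mod_cast h1
      have h8 : 0 ≤ (s / (1 - s)) ^ a := pow_nonneg hr a
      have h9 : ‖z.1.2‖ = 0 := by nlinarith [sq_nonneg ‖z.1.2‖]
      have h10 : (s / (1 - s)) ^ a = 0 := by rw [h9] at h7; simpa using h7
      have h11 := (pow_eq_zero_iff ha.ne').1 h10
      exact sph_ne z (by rw [h6, h11]; simp) (norm_eq_zero.1 h9)

/-- `h(z) = (z₁^a + |z₂|², - z₂ conj z₁)`, invariant under `a`-th roots of unity. -/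
def hmap (a : ℕ) (ha : 0 < a) : C(S3, Y) :=
  mk (fun z : S3 => z.1.1 ^ a + ((‖z.1.2‖ ^ 2 : ℝ) : ℂ))
    (fun z : S3 => z.1.2 * (((0 : ℝ) : ℂ) - (1 - ((0 : ℝ) : ℂ)) * (starRingEnd ℂ) z.1.1))
    (by fun_prop) (by fun_prop) (fun z => nv1 a ha 0 le_rfl zero_le_one z)

def hmap1 (a : ℕ) (ha : 0 < a) : C(S3, Y) :=
  mk (fun z : S3 => z.1.1 ^ a + ((‖z.1.2‖ ^ 2 : ℝ) : ℂ))
    (fun z : S3 => z.1.2 * (((1 : ℝ) : ℂ) - (1 - ((1 : ℝ) : ℂ)) * (starRingEnd ℂ) z.1.1))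
    (by fun_prop) (by fun_prop) (fun z => nv1 a ha 1 zero_le_one le_rfl z)

lemma homotopic1 (a : ℕ) (ha : 0 < a) : (hmap a ha).Homotopic (hmap1 a ha) := by
  refine ⟨⟨mk (fun p : I × S3 => p.2.1.1 ^ a + ((‖p.2.1.2‖ ^ 2 : ℝ) : ℂ))
    (fun p : I × S3 => p.2.1.2 * (((p.1 : ℝ) : ℂ) - (1 - ((p.1 : ℝ) : ℂ)) *
      (starRingEnd ℂ) p.2.1.1))
    (by fun_prop) (by fun_prop) (fun p => nv1 a ha p.1 p.1.2.1 p.1.2.2 p.2), ?_, ?_⟩⟩
  · intro z
    apply Subtype.ext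
    simp [hmap]
  · intro z
    apply Subtype.ext
    simp [hmap1]

/-! ### Second homotopy -/

lemma nv2 (a : ℕ) (ha : 0 < a) (s : ℝ) (z : S3) :
    ¬ (z.1.1 ^ a + (1 - (s : ℂ)) * ((‖z.1.2‖ ^ 2 : ℝ) : ℂ) = 0 ∧ z.1.2 = 0) := by
  rintro ⟨h1, h2⟩
  rw [h2] at h1
  simp only [norm_zero, ne_eq, OfNat.ofNat_ne_zero, not_false_eq_true, zero_pow, ofReal_zero,
      mul_zero, add_zero] at h1
  exact sph_ne z (pow_eq_zero_iff ha.ne' |>.1 h1) h2

lemma nv3 (a : ℕ) (ha : 0 < a) (z : S3) : ¬ (z.1.1 ^ a = 0 ∧ z.1.2 = 0) := by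
  rintro ⟨h1, h2⟩
  exact sph_ne z (pow_eq_zero_iff ha.ne' |>.1 h1) h2

def hmap2 (a : ℕ) (ha : 0 < a) : C(S3, Y) :=
  mk (fun z : S3 => z.1.1 ^ a) (fun z : S3 => z.1.2) (by fun_prop) (by fun_prop)
    (fun z => nv3 a ha z)

lemma homotopic2 (a : ℕ) (ha : 0 < a) : (hmap1 a ha).Homotopic (hmap2 a ha) := by
  refine ⟨⟨mk (fun p : I × S3 => p.2.1.1 ^ a + (1 - ((p.1 : ℝ) : ℂ)) *
      ((‖p.2.1.2‖ ^ 2 : ℝ) : ℂ))
    (fun p : I × S3 => p.2.1.2)
    (by fun_prop) (by fun_prop) (fun p => nv2 a ha p.1 p.2), ?_, ?_⟩⟩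
  · intro z
    apply Subtype.ext
    simp [hmap1]
  · intro z
    apply Subtype.ext
    simp [hmap2]

/-! ### Third homotopy -/

/-- First coordinate of `R_t F_b R_{-t}` (angle `t π / 2`). -/
def g1 (b : ℕ) (c s : ℂ) (z : ℂ × ℂ) : ℂ :=
  c * (c * z.1 + s * z.2) ^ b - s * (-s * z.1 + c * z.2)

/-- Second coordinate of `R_t F_b R_{-t}`. -/
def g2 (b : ℕ) (c s : ℂ) (z : ℂ × ℂ) : ℂ :=
  s * (c * z.1 + s * z.2) ^ b + c * (-s * z.1 + c * z.2)

lemma nvg (b : ℕ) (hb : 0 < b) (c s : ℂ) (hcs : c ^ 2 + s ^ 2 = 1) (z : ℂ × ℂ)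
    (h1 : g1 b c s z = 0) (h2 : g2 b c s z = 0) : z.1 = 0 ∧ z.2 = 0 := by
  unfold g1 at h1
  unfold g2 at h2
  have e1 : (c * z.1 + s * z.2) ^ b = 0 := by
    linear_combination c * h1 + s * h2 - (c * z.1 + s * z.2) ^ b * hcs
  have e2 : -s * z.1 + c * z.2 = 0 := by
    linear_combination -s * h1 + c * h2 - (-s * z.1 + c * z.2) * hcs
  have e3 : c * z.1 + s * z.2 = 0 := (pow_eq_zero_iff hb.ne').1 e1
  constructor
  · linear_combination c * e3 - s * e2 - z.1 * hcs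
  · linear_combination s * e3 + c * e2 - z.2 * hcs

lemma nv4 (b : ℕ) (hb : 0 < b) (c s : ℂ) (hcs : c ^ 2 + s ^ 2 = 1) (z : S3) :
    ¬ ((g1 b c s z.1) ^ b = 0 ∧ g2 b c s z.1 = 0) := by
  rintro ⟨h1, h2⟩
  obtain ⟨h3, h4⟩ := nvg b hb c s hcs z.1 ((pow_eq_zero_iff hb.ne').1 h1) h2
  exact sph_ne z h3 h4

lemma nv5 (b : ℕ) (hb : 0 < b) (z : S3) : ¬ (z.1.1 ^ b = 0 ∧ z.1.2 ^ b = 0) := by
  rintro ⟨h1, h2⟩
  exact sph_ne z (pow_eq_zero_iff hb.ne' |>.1 h1) (pow_eq_zero_iff hb.ne' |>.1 h2)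

/-- `f(z) = (z₁^b, z₂^b)`. -/
def fmap (b : ℕ) (hb : 0 < b) : C(S3, Y) :=
  mk (fun z : S3 => z.1.1 ^ b) (fun z : S3 => z.1.2 ^ b) (by fun_prop) (by fun_prop)
    (fun z => nv5 b hb z)

lemma cs (t : ℝ) : ((Real.cos t : ℝ) : ℂ) ^ 2 + ((Real.sin t : ℝ) : ℂ) ^ 2 = 1 := by
  have := Real.cos_sq_add_sin_sq t
  exact_mod_cast this

lemma homotopic3 (b : ℕ) (hb : 0 < b) :
    (hmap2 (b * b) (Nat.mul_pos hb hb)).Homotopic (fmap b hb) := by
  refine ⟨⟨mk (fun p : I × S3 => (g1 b ((Real.cos ((p.1 : ℝ) * (Real.pi / 2)) : ℝ) : ℂ)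
        ((Real.sin ((p.1 : ℝ) * (Real.pi / 2)) : ℝ) : ℂ) p.2.1) ^ b)
    (fun p : I × S3 => g2 b ((Real.cos ((p.1 : ℝ) * (Real.pi / 2)) : ℝ) : ℂ)
        ((Real.sin ((p.1 : ℝ) * (Real.pi / 2)) : ℝ) : ℂ) p.2.1)
    (by unfold g1; fun_prop) (by unfold g2; fun_prop) (fun p => nv4 b hb _ _ (cs _) p.2), ?_, ?_⟩⟩
  · intro z
    apply Subtype.ext
    simp [hmap2, g1, g2, pow_mul]
  · intro z
    apply Subtype.ext
    simp [fmap, g1, g2]

lemma homotopic_hf (b : ℕ) (hb : 0 < b) :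
    (hmap (b * b) (Nat.mul_pos hb hb)).Homotopic (fmap b hb) :=
  ((homotopic1 _ _).trans (homotopic2 _ _)).trans (homotopic3 b hb)

/-! ### The product -/

/-- Quaternionic product `f * conj h`. -/
def qmul (f h : ℂ × ℂ) : ℂ × ℂ :=
  (f.1 * (starRingEnd ℂ) h.1 + f.2 * (starRingEnd ℂ) h.2, f.2 * h.1 - f.1 * h.2)

lemma qmul_norm (f h : ℂ × ℂ) : ‖(qmul f h).1‖ ^ 2 + ‖(qmul f h).2‖ ^ 2 =
    (‖f.1‖ ^ 2 + ‖f.2‖ ^ 2) * (‖h.1‖ ^ 2 + ‖h.2‖ ^ 2) := by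
  simp only [← Complex.normSq_eq_norm_sq, qmul, Complex.normSq_apply]
  simp
  ring

/-- Squared norm. -/
def N2 (v : ℂ × ℂ) : ℝ := ‖v.1‖ ^ 2 + ‖v.2‖ ^ 2

lemma N2_pos (v : Y) : 0 < N2 v.1 := by
  unfold N2
  rcases v with ⟨⟨v1, v2⟩, hv⟩
  have h : v1 ≠ 0 ∨ v2 ≠ 0 := by
    by_contra hcon
    push Not at hcon
    exact hv (by simp [hcon.1, hcon.2])
  rcases h with h | h
  · have := norm_pos_iff.2 h
    positivity
  · have := norm_pos_iff.2 h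
    positivity

/-- The normalised product. -/
def nprod (f h : Y) : S3 :=
  ⟨(((Real.sqrt (N2 f.1 * N2 h.1) : ℝ) : ℂ)⁻¹ * (qmul f.1 h.1).1,
    ((Real.sqrt (N2 f.1 * N2 h.1) : ℝ) : ℂ)⁻¹ * (qmul f.1 h.1).2), by
    have hf := N2_pos f
    have hh := N2_pos h
    have hpos : 0 < N2 f.1 * N2 h.1 := mul_pos hf hh
    have hs : Real.sqrt (N2 f.1 * N2 h.1) ^ 2 = N2 f.1 * N2 h.1 := Real.sq_sqrt hpos.le
    show ‖_‖ ^ 2 + ‖_‖ ^ 2 = 1
    simp only [norm_mul, norm_inv, Complex.norm_real, Real.norm_eq_abs, mul_pow, inv_pow, sq_abs]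
    rw [← mul_add, hs, qmul_norm]
    exact inv_mul_cancel₀ hpos.ne'⟩

lemma continuous_nprod : Continuous (fun p : Y × Y => nprod p.1 p.2) := by
  unfold nprod
  apply Continuous.subtype_mk
  have hc1 : Continuous fun p : Y × Y => Real.sqrt (N2 p.1.1 * N2 p.2.1) := by
    unfold N2
    fun_prop
  have hne : ∀ p : Y × Y, ((Real.sqrt (N2 p.1.1 * N2 p.2.1) : ℝ) : ℂ) ≠ 0 := by
    intro p
    have := Real.sqrt_pos.2 (mul_pos (N2_pos p.1) (N2_pos p.2))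
    exact_mod_cast this.ne'
  have hc2 : Continuous fun p : Y × Y => ((Real.sqrt (N2 p.1.1 * N2 p.2.1) : ℝ) : ℂ)⁻¹ :=
    (Complex.continuous_ofReal.comp hc1).inv₀ hne
  unfold qmul
  fun_prop

attribute [irreducible] nprod

lemma continuous_nprod_comp {Z : Type*} [TopologicalSpace Z] (a b : Z → Y) (ha : Continuous a)
    (hb : Continuous b) : Continuous fun z => nprod (a z) (b z) :=
  Continuous.comp (g := fun p : Y × Y => nprod p.1 p.2) (f := fun z => (a z, b z))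
    continuous_nprod (ha.prodMk hb)

/-- The north pole. -/
def pole : S3 := ⟨(1, 0), by simp [S3]⟩

lemma nprod_self (f : Y) : nprod f f = pole := by
  have hf := N2_pos f
  apply Subtype.ext
  have h1 : Real.sqrt (N2 f.1 * N2 f.1) = N2 f.1 := Real.sqrt_mul_self hf.le
  have h3 : (qmul f.1 f.1).1 = ((N2 f.1 : ℝ) : ℂ) := by
    simp only [qmul, N2]
    rw [Complex.mul_conj, Complex.mul_conj, Complex.normSq_eq_norm_sq, Complex.normSq_eq_norm_sq]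
    push_cast
    ring
  have h4 : (qmul f.1 f.1).2 = 0 := by
    simp only [qmul]
    ring
  have h5 : ((N2 f.1 : ℝ) : ℂ) ≠ 0 := by exact_mod_cast hf.ne'
  unfold nprod
  simp only [pole, h1, h3, h4, mul_zero]
  rw [inv_mul_cancel₀ h5]

lemma nprod_smul (u : ℂ) (hu : ‖u‖ = 1) (f f' h : Y) (hf : f'.1 = (u * f.1.1, u * f.1.2)) :
    (nprod f' h).1 = (u * (nprod f h).1.1, u * (nprod f h).1.2) := by
  have h1 : N2 f'.1 = N2 f.1 := by
    simp [N2, hf, hu]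
  unfold nprod
  simp only [h1]
  simp only [hf, qmul]
  ext1
  · simp only; ring
  · simp only; ring

lemma exists_null_aux (b : ℕ) (f h : C(S3, Y)) (H : ContinuousMap.Homotopy h f)
    (hf : ∀ u : ℂ, ∀ z w : S3, w.1 = (u * z.1.1, u * z.1.2) →
      (f w).1 = (u ^ b * (f z).1.1, u ^ b * (f z).1.2))
    (hh : ∀ u : ℂ, ‖u‖ = 1 → u ^ (b * b) = 1 → ∀ z w : S3, w.1 = (u * z.1.1, u * z.1.2) →
      h w = h z) :
    ∃ K : C(I × S3, S3), (∀ z, K (1, z) = pole) ∧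
      ∀ u : ℂ, ‖u‖ = 1 → u ^ (b * b) = 1 → ∀ z w : S3, w.1 = (u * z.1.1, u * z.1.2) →
        (K (0, w)).1 = (u ^ b * (K (0, z)).1.1, u ^ b * (K (0, z)).1.2) := by
  have h1 : Continuous fun p : I × S3 => f p.2 := f.continuous.comp continuous_snd
  have h2 : Continuous fun p : I × S3 => H p := H.continuous
  have hcont : Continuous fun p : I × S3 => nprod (f p.2) (H p) :=
    continuous_nprod_comp _ _ h1 h2
  let K : C(I × S3, S3) := ⟨fun p => nprod (f p.2) (H p), hcont⟩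
  have hK : ∀ p, K p = nprod (f p.2) (H p) := fun _ => rfl
  refine ⟨K, ?_, ?_⟩
  · intro z
    have e1 : H (1, z) = f z := H.apply_one z
    rw [hK, e1, nprod_self]
  · intro u hu hub z w hw
    have e1 : H (0, w) = h w := H.apply_zero w
    have e2 : H (0, z) = h z := H.apply_zero z
    rw [hK, hK, e1, e2, hh u hu hub z w hw]
    exact nprod_smul (u ^ b) (by rw [norm_pow, hu, one_pow]) _ _ _ (hf u z w hw)

lemma hmap_inv (a : ℕ) (ha : 0 < a) (u : ℂ) (hu : ‖u‖ = 1) (hub : u ^ a = 1) (z w : S3)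
    (hw : w.1 = (u * z.1.1, u * z.1.2)) : hmap a ha w = hmap a ha z := by
  apply Subtype.ext
  simp only [hmap, mk_coe, hw]
  have hcu : u * (starRingEnd ℂ) u = 1 := by
    rw [Complex.mul_conj, Complex.normSq_eq_norm_sq, hu]; simp
  ext1
  · simp only [norm_mul, hu, one_mul, mul_pow, hub]
  · simp only [map_mul]
    push_cast
    linear_combination (-z.1.2 * (starRingEnd ℂ) z.1.1) * hcu

lemma fmap_eqv (b : ℕ) (hb : 0 < b) (u : ℂ) (z w : S3)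
    (hw : w.1 = (u * z.1.1, u * z.1.2)) :
    (fmap b hb w).1 = (u ^ b * (fmap b hb z).1.1, u ^ b * (fmap b hb z).1.2) := by
  simp only [fmap, mk_coe, hw, mul_pow]

/-- **Main lemma.** For `b ≥ 1` there is a homotopy `K` on the 3-sphere, ending at a constant map,
whose starting map intertwines multiplication by `u` and by `u ^ b`, for every
`u` with `u ^ (b * b) = 1`. -/
theorem exists_null (b : ℕ) (hb : 0 < b) :
    ∃ K : C(I × S3, S3), (∀ z, K (1, z) = pole) ∧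
      ∀ u : ℂ, ‖u‖ = 1 → u ^ (b * b) = 1 → ∀ z w : S3, w.1 = (u * z.1.1, u * z.1.2) →
        (K (0, w)).1 = (u ^ b * (K (0, z)).1.1, u ^ b * (K (0, z)).1.2) := by
  obtain ⟨H⟩ := homotopic_hf b hb
  exact exists_null_aux b _ _ H (fun u z w hw => fmap_eqv b hb u z w hw)
    (fun u hu hub z w hw => hmap_inv _ _ u hu hub z w hw)

end

end Pool.Agent.H848R3
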