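import Mathlib
import Pool.Agent.H848R3.Sphere
import Pool.Agent.H848R3.PadicChar
import Pool.Agent.H848R3.Density

/-!
The free `ℤ_p`-space `X = ∏_j S^3` and its equivariant null-homotopic self-map.
-/

namespace Pool.Agent.H848R3

open Complex ContinuousMap unitInterval

noncomputable section

variable (p : ℕ) [Fact p.Prime]

/-- The countable product of 3-spheres. -/
def XX (_p : ℕ) : Type := ℕ → S3

instance topXX : TopologicalSpace (XX p) := inferInstanceAs (TopologicalSpace (ℕ → S3))
instance compactXX : CompactSpace (XX p) := inferInstanceAs (CompactSpace (ℕ → S3))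
instance t2XX : T2Space (XX p) := inferInstanceAs (T2Space (ℕ → S3))
instance nonemptyXX : Nonempty (XX p) := ⟨fun _ => pole⟩

/-- Scalar multiplication on the sphere. -/
def rot (u : ℂ) (hu : ‖u‖ = 1) (z : S3) : S3 :=
  ⟨(u * z.1.1, u * z.1.2), by
    show ‖_‖ ^ 2 + ‖_‖ ^ 2 = 1
    simp only [norm_mul, hu, one_mul]
    exact sph z⟩

/-- The action of `ℤ_p` on the product: on the factor `j` the group acts through its character of
order `p ^ (2 ^ j)`. -/
instance actionXX : AddAction ℤ_[p] (XX p) where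
  vadd g x := fun j => rot (psi p (2 ^ j) g) (psi_norm p _ g) (x j)
  zero_vadd x := by
    funext j
    apply Subtype.ext
    show (psi p (2 ^ j) 0 * (x j).1.1, psi p (2 ^ j) 0 * (x j).1.2) = (x j).1
    simp [psi_zero]
  add_vadd g h x := by
    funext j
    apply Subtype.ext
    show (psi p (2 ^ j) (g + h) * (x j).1.1, psi p (2 ^ j) (g + h) * (x j).1.2) =
      (psi p (2 ^ j) g * (psi p (2 ^ j) h * (x j).1.1),
        psi p (2 ^ j) g * (psi p (2 ^ j) h * (x j).1.2))
    simp [psi_add, mul_assoc]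

lemma vadd_coe (g : ℤ_[p]) (x : XX p) (j : ℕ) :
    ((g +ᵥ x) j).1 = (psi p (2 ^ j) g * (x j).1.1, psi p (2 ^ j) g * (x j).1.2) := rfl

instance contXX : ContinuousVAdd ℤ_[p] (XX p) where
  continuous_vadd := by
    refine continuous_pi (fun j => ?_)
    refine Continuous.subtype_mk (f := fun q : ℤ_[p] × XX p =>
      ((psi p (2 ^ j) q.1 * (q.2 j).1.1, psi p (2 ^ j) q.1 * (q.2 j).1.2) : ℂ × ℂ)) ?_ _
    have h1 : Continuous fun q : ℤ_[p] × XX p => psi p (2 ^ j) q.1 :=
      (psi_continuous p _).comp continuous_fst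
    have h2 : Continuous fun q : ℤ_[p] × XX p => ((q.2 j : S3) : ℂ × ℂ) :=
      continuous_subtype_val.comp ((continuous_apply j).comp continuous_snd)
    exact (h1.mul (continuous_fst.comp h2)).prodMk (h1.mul (continuous_snd.comp h2))

/-- The action is free. -/
lemma free_XX (g : ℤ_[p]) (x : XX p) (h : g +ᵥ x = x) : g = 0 := by
  apply eq_zero_of_psi p (f := fun j => 2 ^ j) (fun m => ⟨m, Nat.lt_two_pow_self.le⟩)
  intro j
  have h1 : ((g +ᵥ x) j).1 = (x j).1 := by rw [h]
  rw [vadd_coe] at h1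
  have h2 : psi p (2 ^ j) g * (x j).1.1 = (x j).1.1 := congrArg Prod.fst h1
  have h3 : psi p (2 ^ j) g * (x j).1.2 = (x j).1.2 := congrArg Prod.snd h1
  by_contra hne
  have h4 : (x j).1.1 = 0 := by
    have : (psi p (2 ^ j) g - 1) * (x j).1.1 = 0 := by linear_combination h2
    rcases mul_eq_zero.1 this with h | h
    · exact absurd (sub_eq_zero.1 h) hne
    · exact h
  have h5 : (x j).1.2 = 0 := by
    have : (psi p (2 ^ j) g - 1) * (x j).1.2 = 0 := by linear_combination h3
    rcases mul_eq_zero.1 this with h | h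
    · exact absurd (sub_eq_zero.1 h) hne
    · exact h
  exact sph_ne (x j) h4 h5

/-- There is a homotopy `K` on `X` from an equivariant map to a constant map. -/
theorem exists_homotopy : ∃ (K : C(I × XX p, XX p)) (c : XX p), (∀ x, K (1, x) = c) ∧
    ∀ (g : ℤ_[p]) (x : XX p), K (0, g +ᵥ x) = g +ᵥ K (0, x) := by
  have hp : 0 < p := (Fact.out : p.Prime).pos
  choose K hK1 hK0 using fun j : ℕ => exists_null (p ^ (2 ^ j)) (pow_pos hp _)
  refine ⟨⟨fun q => fun j => K j (q.1, q.2 (j + 1)), ?_⟩, fun _ => pole, ?_, ?_⟩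
  · refine continuous_pi (fun j => ?_)
    exact (K j).continuous.comp
      (continuous_fst.prodMk ((continuous_apply (j + 1)).comp continuous_snd))
  · intro x
    funext j
    exact hK1 j _
  · intro g x
    funext j
    apply Subtype.ext
    have hexp : 2 ^ (j + 1) = 2 ^ j + 2 ^ j := by rw [pow_succ]; ring
    have h1 : psi p (2 ^ (j + 1)) g ^ (p ^ (2 ^ j) * p ^ (2 ^ j)) = 1 := by
      rw [← pow_add, ← hexp]
      exact psi_pow p _ g
    have h2 : psi p (2 ^ (j + 1)) g ^ (p ^ (2 ^ j)) = psi p (2 ^ j) g := by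
      rw [hexp]
      exact psi_compat p _ _ g
    have h3 := hK0 j (psi p (2 ^ (j + 1)) g) (psi_norm p _ g) h1 (x (j + 1)) ((g +ᵥ x) (j + 1))
      (vadd_coe p g x (j + 1))
    rw [h2] at h3
    rw [vadd_coe]
    exact h3

end

end Pool.Agent.H848R3
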